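import Pool.Agent.MP_1609a8_nt.Mg.Main

set_option autoImplicit false

namespace Pool.Agent.Results.MP_1609a8_nt.ClassicalBarrier

open Pool.Agent.MP_1609a8_nt

/-- A Sidon set meets all but finitely many Singer, Bose–Chowla and Ruzsa sets (modulus `m`) in
fewer than `0.996 √m` points of `[1, m]`. -/
theorem result :
    ∀ A : Set ℕ,
      (∀ a ∈ A, ∀ b ∈ A, ∀ c ∈ A, ∀ d ∈ A, a + b = c + d → (a = c ∧ b = d) ∨ (a = d ∧ b = c)) →
      ∃ m₀ : ℕ, ∀ m ≥ m₀, ∀ D : Set ℕ, IsClassical m D →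
        ((A ∩ D ∩ Set.Icc 1 m).ncard : ℝ) < 0.996 * Real.sqrt m :=
  fun A hA => barrier A fun a ha b hb c hc d hd h =>
      (hA a ha b hb c hc d hd h).imp And.left And.left

end Pool.Agent.Results.MP_1609a8_nt.ClassicalBarrier
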