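import Pool.Agent.MP_1609a8_nt.Mg.Main

set_option autoImplicit false

namespace Pool.Agent.Results.MP_1609a8_nt.Lacunary

open Pool.Agent.MP_1609a8_nt

/-- A set all of whose initial segments lie in Singer, Bose–Chowla or Ruzsa sets (of unbounded
modulus) is lacunary. -/
theorem result :
    ∀ A : Set ℕ,
      (∀ N : ℕ, ∃ m ≥ N, ∃ D : Set ℕ, IsClassical m D ∧ A ∩ Set.Iic N ⊆ D) →
      ∃ C : ℕ, ∀ a ∈ A, ∀ b ∈ A, a < b → a ≤ C * (b - a) :=
  lac_of_classical

end Pool.Agent.Results.MP_1609a8_nt.Lacunary
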