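import Pool.Agent.MP_1609a8_nt.B93.Main

/-- A set of positive integers in which every `n` has at most two representations `a + a'`,
`a ≤ a'`, and whose counting function exceeds `(4/3 - ε) √n` infinitely often. -/
theorem Pool.Agent.Results.MP_1609a8_nt.TwoRepresentations.result : ∃ A : Set ℕ, 0 ∉ A ∧
    (∀ n, {x : ℕ × ℕ | x.1 ∈ A ∧ x.2 ∈ A ∧ x.1 ≤ x.2 ∧ x.1 + x.2 = n}.encard ≤ 2) ∧
    ∀ ε : ℝ, 0 < ε → ∃ᶠ n : ℕ in Filter.atTop,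
      (4 / 3 - ε) * √(n : ℝ) ≤ ((A ∩ Set.Icc 1 n).ncard : ℝ) :=
  Pool.Agent.MP_1609a8_nt.B93.main
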