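import Pool.Agent.MP_1609a8_nt.H76.Window

set_option autoImplicit false

namespace Pool.Agent.Results.MP_1609a8_nt.WindowBarrier

open Pool.Agent.MP_1609a8_nt

/-- If a Sidon set `A` contains all but `δ √N` points of a Singer, Bose–Chowla or Ruzsa set `D`
inside a window `W ⊆ [1, N]` of spectral norm at most `N ^ (1 / 20)`, then `D` has at most
`(1 / √2 + ε) √N` points in `W`. -/
theorem result :
    ∀ A : Set ℕ,
      (∀ a ∈ A, ∀ b ∈ A, ∀ c ∈ A, ∀ d ∈ A, a + b = c + d → (a = c ∧ b = d) ∨ (a = d ∧ b = c)) →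
      ∀ ε : ℝ, 0 < ε → ∃ δ : ℝ, 0 < δ ∧ ∃ m₀ : ℕ, ∀ m ≥ m₀, ∀ N : ℕ, m ^ 2 ≤ N ^ 3 →
        ∀ D : Set ℕ, IsClassical m D → ∀ W : Set ℕ, W ⊆ Set.Icc 1 N →
          (∃ (n : ℕ) (c : Fin n → ℂ) (θ : Fin n → ℝ), ∑ i, ‖c i‖ ≤ (N : ℝ) ^ (1 / 20 : ℝ) ∧
            ∀ x ∈ Set.Icc 1 N, ∑ i, c i * Complex.exp (2 * Real.pi * Complex.I * θ i * x) =
              W.indicator (fun _ => (1 : ℂ)) x) →
          (((D ∩ W) \ A).ncard : ℝ) ≤ δ * Real.sqrt N →
          ((D ∩ W).ncard : ℝ) ≤ (1 / Real.sqrt 2 + ε) * Real.sqrt N := by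
  classical
  intro A hA ε hε
  obtain ⟨δ, δ0, m₀, h⟩ := H76.window (A := A) (fun a ha b hb c hc d hd e =>
    (hA a ha b hb c hc d hd e).imp And.left And.left) hε
  refine ⟨δ, δ0, m₀, fun m hm N hN D hD W hW ⟨n, c, θ, h1, h2⟩ hB => ?_⟩
  lift W to Finset ℕ using (Set.finite_Icc 1 N).subset hW
  have e1 : (D ∩ W) \ A = (W.filter fun a => a ∈ D ∧ a ∉ A) := by
    ext a
    simp only [Set.mem_diff, Set.mem_inter_iff, Finset.mem_coe, Finset.mem_filter]
    tauto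
  have e2 : D ∩ W = W.filter (· ∈ D) := by
    ext a
    simp [and_comm]
  rw [e1, Set.ncard_coe_finset] at hB
  rw [e2, Set.ncard_coe_finset]
  refine h m hm N hN D hD W (fun a ha => by simpa using hW ha)
    ⟨n, c, fun i => Complex.exp (2 * Real.pi * Complex.I * θ i), fun i => ?_, h1, fun x hx => ?_⟩ hB
  · beta_reduce
    rw [show 2 * Real.pi * Complex.I * θ i = Complex.I * (2 * Real.pi * θ i : ℝ) by
      push_cast; ring, Complex.norm_exp_I_mul_ofReal]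
  · simpa [← Complex.exp_nat_mul, mul_comm (x : ℂ), Set.indicator_apply] using
      h2 x (by simpa using hx)

end Pool.Agent.Results.MP_1609a8_nt.WindowBarrier
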